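import Pool.Agent.N139.G00.Glue
import Pool.Agent.N139.G00.Indec2

/-!
# A six-dimensional indecomposable ppav, not a Jacobian, with a nonzero point in `Bs(Γ₀₀)`
-/

open Complex Matrix
open scoped Real

namespace Pool.Agent.Results.MP_02754e_ag.BaseLocusNotJacobian

/-- The Siegel upper half-space: symmetric complex matrices with positive definite imaginary
part. -/
def SiegelSpace (g : ℕ) : Set (Matrix (Fin g) (Fin g) ℂ) :=
  {τ | τ.IsSymm ∧ (τ.map Complex.im).PosDef}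

/-- The second order theta function `Θ[ε](τ, z)`, where `ε = e / 2` with `e ∈ {0, 1}^g`:
`∑_n exp (2 pi i ((n + ε)^t τ (n + ε) + 2 (n + ε)^t z))`. -/
noncomputable def Theta {g : ℕ} (τ : Matrix (Fin g) (Fin g) ℂ) (e : Fin g → Fin 2)
    (z : Fin g → ℂ) : ℂ :=
  ∑' n : Fin g → ℤ, cexp (2 * π * I *
    ((∑ i, ∑ j, ((n i : ℂ) + ((e i).val : ℂ) / 2) * τ i j * ((n j : ℂ) + ((e j).val : ℂ) / 2)) +
      2 * ∑ i, ((n i : ℂ) + ((e i).val : ℂ) / 2) * z i))

/-- The section of `2Θ` with coefficients `c` in the basis of second order theta functions. -/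
noncomputable def sec {g : ℕ} (τ : Matrix (Fin g) (Fin g) ℂ) (c : (Fin g → Fin 2) → ℂ)
    (z : Fin g → ℂ) : ℂ :=
  ∑ e, c e * Theta τ e z

/-- The sections of `2Θ` of multiplicity at least four at the origin. -/
def Gamma00 {g : ℕ} (τ : Matrix (Fin g) (Fin g) ℂ) : Set ((Fin g → Fin 2) → ℂ) :=
  {c | ∀ k < 4, iteratedFDeriv ℂ k (sec τ c) 0 = 0}

/-- The base locus of `Γ₀₀`, as a subset of `ℂ^g`. -/
def BaseLocus {g : ℕ} (τ : Matrix (Fin g) (Fin g) ℂ) : Set (Fin g → ℂ) :=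
  {z | ∀ c ∈ Gamma00 τ, sec τ c z = 0}

/-- The period lattice `ℤ^g + τ ℤ^g`. -/
def Lattice {g : ℕ} (τ : Matrix (Fin g) (Fin g) ℂ) : Set (Fin g → ℂ) :=
  {z | ∃ p q : Fin g → ℤ, ∀ i, z i = (p i : ℂ) + ∑ j, τ i j * (q j : ℂ)}

/-- The action `γ τ = (a τ + b) (c τ + d)⁻¹`. -/
noncomputable def act {g : ℕ} (γ : Matrix (Fin g ⊕ Fin g) (Fin g ⊕ Fin g) ℤ)
    (τ : Matrix (Fin g) (Fin g) ℂ) : Matrix (Fin g) (Fin g) ℂ :=
  (γ.toBlocks₁₁.map (Int.cast : ℤ → ℂ) * τ + γ.toBlocks₁₂.map (Int.cast : ℤ → ℂ)) *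
    (γ.toBlocks₂₁.map (Int.cast : ℤ → ℂ) * τ + γ.toBlocks₂₂.map (Int.cast : ℤ → ℂ))⁻¹

/-- The ppav `A_τ` is decomposable: some `Sp(2g, ℤ)`-translate of `τ` is block diagonal for a
partition of the index set into two nonempty parts. -/
def Decomposable {g : ℕ} (τ : Matrix (Fin g) (Fin g) ℂ) : Prop :=
  ∃ γ ∈ Matrix.symplecticGroup (Fin g) ℤ, ∃ P : Finset (Fin g), P.Nonempty ∧ Pᶜ.Nonempty ∧
    ∀ i ∈ P, ∀ j ∈ Pᶜ, act γ τ i j = 0 ∧ act γ τ j i = 0

/-- The second order theta functions satisfy the Kadomtsev-Petviashvili equation at the origin: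
`(D_U⁴ - D_U D_W + (3/4) D_V² + d) Θ[ε](τ, 0) = 0` for all `ε`, for some vectors `U ≠ 0`, `V`, `W`
and a constant `d`.  By the theorem of Krichever and Shiota an indecomposable ppav is the Jacobian
of a smooth curve if and only if this holds. -/
def SatisfiesKP {g : ℕ} (τ : Matrix (Fin g) (Fin g) ℂ) : Prop :=
  ∃ U V W : Fin g → ℂ, ∃ d : ℂ, U ≠ 0 ∧ ∀ e : Fin g → Fin 2,
    iteratedFDeriv ℂ 4 (Theta τ e) 0 ![U, U, U, U] -
      iteratedFDeriv ℂ 2 (Theta τ e) 0 ![U, W] +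
      3 / 4 * iteratedFDeriv ℂ 2 (Theta τ e) 0 ![V, V] + d * Theta τ e 0 = 0

/-- The ppav `A_τ` has an automorphism acting on its tangent space as multiplication by a
primitive cube root of unity. -/
def HasScalarAutomorphism {g : ℕ} (τ : Matrix (Fin g) (Fin g) ℂ) : Prop :=
  ∃ γ ∈ Matrix.symplecticGroup (Fin g) ℤ, act γ τ = τ ∧ ∃ ω : ℂ, ω ^ 2 + ω + 1 = 0 ∧
    γ.toBlocks₂₁.map (Int.cast : ℤ → ℂ) * τ + γ.toBlocks₂₂.map (Int.cast : ℤ → ℂ) =
      ω • (1 : Matrix (Fin g) (Fin g) ℂ)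

open N139.Th N139.G00

theorem theta_eq (e : Fin 6 → Fin 2) : ∃ C : ℂ, C ≠ 0 ∧ Theta T e = TH C e := by
  obtain ⟨C, hC, h⟩ := theta_form e
  refine ⟨C, hC, ?_⟩
  funext z
  rw [TH, ← h z, Theta]
  refine tsum_congr fun n => ?_
  congr 1
  simp only [dotProduct, mulVec, Finset.mul_sum]
  rw [mul_add]
  simp only [Finset.mul_sum]
  congr 1
  · refine Finset.sum_congr rfl fun i _ => Finset.sum_congr rfl fun j _ => ?_
    push_cast
    ring
  · refine Finset.sum_congr rfl fun i _ => ?_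
    push_cast
    ring

theorem im_w0 : w0.im = -(√3 / 3) := by
  simp [w0, rho]
  ring

theorem z0_not_lattice : z0 ∉ Lattice T := by
  rintro ⟨p, q, h⟩
  have h0 := congrArg Complex.im (h 0)
  have e1 : (z0 0).im = -(√3 / 3) := im_w0
  have e2 : ((p 0 : ℂ) + ∑ j, T 0 j * (q j : ℂ)).im = √3 / 4 * q 0 := by
    rw [Fin.sum_univ_six]
    simp only [T_apply]
    simp [rho]
    left
    ring
  rw [e1, e2] at h0
  have h3 : 0 < √3 := by positivity
  have h4 : (3 * q 0 : ℝ) = -4 := by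
    have h5 : √3 * (3 * q 0 + 4) = 0 := by linear_combination 12 * (-h0)
    have := (mul_eq_zero.1 h5).resolve_left h3.ne'
    linarith
  have h5 : 3 * q 0 = -4 := by exact_mod_cast h4
  omega

/-- the symplectic automorphism -/
def gam : Matrix (Fin 6 ⊕ Fin 6) (Fin 6 ⊕ Fin 6) ℤ :=
  Matrix.fromBlocks (S6 - 1) B6 ((2 : ℤ) • 1) (-S6)

theorem gam_symp : gam ∈ Matrix.symplecticGroup (Fin 6) ℤ := by
  rw [SymplecticGroup.mem_iff, gam, Matrix.J, Matrix.fromBlocks_transpose,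
    Matrix.fromBlocks_multiply, Matrix.fromBlocks_multiply]
  congr 1 <;> decide +kernel

theorem gam_act : act gam T = T ∧
    gam.toBlocks₂₁.map (Int.cast : ℤ → ℂ) * T + gam.toBlocks₂₂.map (Int.cast : ℤ → ℂ) =
      rho • (1 : Matrix (Fin 6) (Fin 6) ℂ) := by
  have h1 := T6_rel1 S6 B6 S6_rel
  have h2 := T6_rel2 S6
  rw [← T_eq] at h1 h2
  refine ⟨?_, ?_⟩
  · rw [act]
    simp only [gam, Matrix.toBlocks_fromBlocks₁₁, Matrix.toBlocks_fromBlocks₁₂,
      Matrix.toBlocks_fromBlocks₂₁, Matrix.toBlocks_fromBlocks₂₂]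
    change (cc (S6 - 1) * T + cc B6) * (cc ((2 : ℤ) • 1) * T + cc (-S6))⁻¹ = T
    rw [h1, h2]
    have h3 : (rho • (1 : Matrix (Fin 6) (Fin 6) ℂ))⁻¹ = rho⁻¹ • 1 := by
      refine Matrix.inv_eq_right_inv ?_
      rw [smul_mul_smul_comm, one_mul, mul_inv_cancel₀ rho_ne, one_smul]
    rw [h3, smul_mul_smul_comm, mul_one, mul_inv_cancel₀ rho_ne, one_smul]
  · simp only [gam, Matrix.toBlocks_fromBlocks₂₁, Matrix.toBlocks_fromBlocks₂₂]
    exact h2

theorem symp_blocks (γ : Matrix (Fin 6 ⊕ Fin 6) (Fin 6 ⊕ Fin 6) ℤ)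
    (h : γ ∈ Matrix.symplecticGroup (Fin 6) ℤ) :
    γ.toBlocks₂₁ᵀ * γ.toBlocks₁₁ = γ.toBlocks₁₁ᵀ * γ.toBlocks₂₁ ∧
    γ.toBlocks₂₂ᵀ * γ.toBlocks₁₂ = γ.toBlocks₁₂ᵀ * γ.toBlocks₂₂ ∧
    γ.toBlocks₁₁ᵀ * γ.toBlocks₂₂ - γ.toBlocks₂₁ᵀ * γ.toBlocks₁₂ = 1 := by
  rw [SymplecticGroup.mem_iff', ← Matrix.fromBlocks_toBlocks γ, Matrix.J,
    Matrix.fromBlocks_transpose, Matrix.fromBlocks_multiply, Matrix.fromBlocks_multiply,
    Matrix.fromBlocks_inj] at h
  obtain ⟨h1, h2, h3, h4⟩ := h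
  simp only [mul_zero, zero_add, mul_one, mul_neg, add_zero, neg_mul] at h1 h2 h3 h4
  refine ⟨?_, ?_, ?_⟩
  · rw [← sub_eq_zero]
    rw [← h1]
    abel
  · rw [← sub_eq_zero]
    rw [← h4]
    abel
  · rw [← neg_inj, ← h2]
    abel

theorem indecomposable : ¬ Decomposable T := by
  rintro ⟨γ, hγ, P, ⟨i0, hi0⟩, ⟨j0, hj0⟩, hP⟩
  obtain ⟨h1, h2, h3⟩ := symp_blocks γ hγ
  have hκ : ((√3 / 2 : ℝ) * I : ℂ) ≠ 0 := by
    refine mul_ne_zero ?_ Complex.I_ne_zero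
    have : (√3 / 2 : ℝ) ≠ 0 := by positivity
    exact_mod_cast this
  have hEF := EF (t := T) γ.toBlocks₁₁ γ.toBlocks₁₂ γ.toBlocks₂₁ γ.toBlocks₂₂ h1 h2 h3
  rw [T_im] at hEF
  have hu := E_unit _ hκ _ _ hEF
  obtain ⟨k, hk⟩ : ∃ k : Fin 6 → ℤ, k = fun i => if i ∈ P then 1 else 0 := ⟨_, rfl⟩
  have hT : cc γ.toBlocks₁₁ * T + cc γ.toBlocks₁₂ =
      act γ T * (cc γ.toBlocks₂₁ * T + cc γ.toBlocks₂₂) := by
    rw [act]
    exact (Matrix.nonsing_inv_mul_cancel_right _ _ hu).symm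
  have hc : cc (Matrix.diagonal k) * act γ T = act γ T * cc (Matrix.diagonal k) := by
    have hd : cc (Matrix.diagonal k) = Matrix.diagonal fun i => ((k i : ℤ) : ℂ) := by
      rw [cc, Matrix.diagonal_map (by simp)]
    rw [hd]
    ext i j
    rw [Matrix.diagonal_mul, Matrix.mul_diagonal, hk]
    by_cases hi : i ∈ P <;> by_cases hj : j ∈ P
    · simp [hi, hj]
    · rw [(hP i hi j (Finset.mem_compl.2 hj)).1]
      simp
    · rw [(hP j hj i (Finset.mem_compl.2 hi)).2]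
      simp
    · simp [hi, hj]
  have hKK : Matrix.diagonal k * Matrix.diagonal k = Matrix.diagonal k := by
    rw [Matrix.diagonal_mul_diagonal]
    congr 1
    funext i
    rw [hk]
    by_cases hi : i ∈ P <;> simp [hi]
  rcases indec_core _ hκ _ _ _ _ h1 h2 h3 T_im (act γ T) hT (Matrix.diagonal k) hKK
    (Matrix.diagonal_transpose k) hc hu with h | h
  · have h4 := congrFun (congrFun h i0) i0
    simp [cc, hk, hi0] at h4
  · have h4 := congrFun (congrFun h j0) j0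
    have h5 : j0 ∉ P := Finset.mem_compl.1 hj0
    simp [cc, hk, h5] at h4

/-- There is an indecomposable principally polarised abelian variety of dimension six for which
the Kadomtsev-Petviashvili equation has no solution and which has an automorphism acting as a
scalar of order three on the tangent space (so it is not a Jacobian), and for which the base
locus of `Γ₀₀` contains a point other than the origin. -/
theorem result : ∃ τ ∈ SiegelSpace 6, ¬ Decomposable τ ∧ ¬ SatisfiesKP τ ∧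
    HasScalarAutomorphism τ ∧ ∃ z ∈ BaseLocus τ, z ∉ Lattice τ := by
  choose C hC hTh using theta_eq
  refine ⟨T, ⟨tmat_symm _ _, tmat_posDef _ s6_im _⟩, indecomposable, ?_, ?_, z0, ?_,
    z0_not_lattice⟩
  · rintro ⟨U, V, W, d, hU, H⟩
    refine hU (no_kp C hC U V W d fun e => ?_)
    have h := H e
    rw [hTh e] at h
    exact h
  · exact ⟨gam, gam_symp, gam_act.1, rho, rho_sq, gam_act.2⟩
  · intro c hc
    have h1 : sec T c = fun z => ∑ e, c e * TH (C e) e z := by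
      funext z
      rw [sec]
      exact Finset.sum_congr rfl fun e _ => by rw [hTh e]
    rw [h1]
    refine base_TH C c fun k hk => ?_
    rw [← h1]
    exact hc k hk

end Pool.Agent.Results.MP_02754e_ag.BaseLocusNotJacobian
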